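import Mathlib
import Pool.Agent.Q103.SP.Final
import Pool.Agent.Q103.SP.Smooth

/-!
# `A X + B Y = C Z` in products of small spread with commensurable bases

We call the bases of three products commensurable if they are values at one integer `t` of monic
polynomials of bounded degree with coefficients (digits in base `t`) up to `t ^ δ`, for instance, if
the bases lie in an interval `[t, t + t ^ δ]`, or if `b_X = t`, `b_Y = t ^ 2 + t + 1`,
`b_Z = t ^ 5 - 2`. We prove that `(s_X + 1) / n_X + (s_Y + 1) / n_Y + (s_Z + 1) / n_Z > 1` for all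
solutions of `A X + B Y = C Z` with `gcd (X, Y) ≤ Q * rad (gcd (X, Y))` in products with
commensurable bases, bounded spreads and any degrees, if `t` is large, uniformly in
`A, B, C, Q ≤ t ^ δ`, provided that every factor that occurs more than `t ^ δ` times has a prime
factor up to `t ^ δ` (in particular for all degrees up to `t ^ δ`); and for given `A, B, C, Q` there
are only finitely many solutions in such products whose degrees and spreads do not satisfy this
inequality.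
-/

set_option autoImplicit false

namespace Pool.Agent.Results.MP_4ffbf9_nt.CommensurableBases

open Polynomial Finset

/-- The list `l` is a product with base (smallest element) `b` and spread `s`. -/
def IsProduct (b s : ℕ) (l : List ℕ) : Prop :=
  0 < b ∧ b ∈ l ∧ b + s ∈ l ∧ ∀ x ∈ l, b ≤ x ∧ x ≤ b + s

/-- `b` is the value at `t` of a monic polynomial of degree between `1` and `K` with coefficients of
absolute value at most `H`. -/
def SmallDigits (K : ℕ) (H : ℝ) (t b : ℕ) : Prop :=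
  ∃ f : ℤ[X], f.Monic ∧ 0 < f.natDegree ∧ f.natDegree ≤ K ∧ (∀ j, |(f.coeff j : ℝ)| ≤ H) ∧
    f.eval (t : ℤ) = b

/-- The products `l 0`, `l 1`, `l 2` have the bases `b 0`, `b 1`, `b 2`, which have small digits in
base `t`, and spreads up to `K`; factors that occur very often have a small prime factor. -/
structure Commensurable (K : ℕ) (H : ℝ) (t : ℕ) (b s : Fin 3 → ℕ) (l : Fin 3 → List ℕ) : Prop where
  product : ∀ w, IsProduct (b w) (s w) (l w)
  digits : ∀ w, SmallDigits K H t (b w)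
  spread : ∀ w, s w ≤ K
  small_prime : ∀ w, ∀ x ∈ l w, H < (l w).count x → ∃ p : ℕ, p.Prime ∧ p ∣ x ∧ (p : ℝ) ≤ H

/-- `(X, Y, Z)` is a solution of `A X + B Y = C Z` with `gcd (X, Y) ≤ Q * rad (gcd (X, Y))`. -/
def IsSolution (A B C : ℕ) (Q : ℝ) (X Y Z : ℕ) : Prop :=
  A * X + B * Y = C * Z ∧
    ((Nat.gcd X Y : ℕ) : ℝ) ≤ Q * ((∏ q ∈ (Nat.gcd X Y).primeFactors, q : ℕ) : ℝ)

/-- The sum `(s_X + 1) / n_X + (s_Y + 1) / n_Y + (s_Z + 1) / n_Z`. -/
noncomputable def total (s : Fin 3 → ℕ) (l : Fin 3 → List ℕ) : ℝ :=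
  ∑ w, ((s w : ℝ) + 1) / (l w).length

/-- a bound for values -/
theorem eval_le {K t T : ℕ} {f : ℤ[X]} (hf : f.natDegree ≤ K) (hc : ∀ j, |(f.coeff j : ℝ)| ≤ T)
    (ht : t ≤ T) : |((f.eval (t : ℤ) : ℤ) : ℝ)| ≤ (K + 1) * (T + 1 : ℝ) ^ (K + 1) := by
  rw [eval_eq_sum_range]
  push_cast
  have hT : (0 : ℝ) ≤ T := Nat.cast_nonneg _
  have htT : (t : ℝ) ≤ T := by exact_mod_cast ht
  refine (Finset.abs_sum_le_sum_abs _ _).trans ?_
  calc ∑ i ∈ Finset.range (f.natDegree + 1), |(f.coeff i : ℝ) * (t : ℝ) ^ i|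
      ≤ ∑ _i ∈ Finset.range (f.natDegree + 1), (T + 1 : ℝ) ^ (K + 1) := by
        apply Finset.sum_le_sum
        intro i hi
        rw [Finset.mem_range] at hi
        rw [abs_mul, abs_pow, abs_of_nonneg (a := (t : ℝ)) (Nat.cast_nonneg t)]
        calc |(f.coeff i : ℝ)| * (t : ℝ) ^ i ≤ (T + 1 : ℝ) * (T + 1 : ℝ) ^ K := by
              apply mul_le_mul ((hc i).trans (by linarith)) _ (by positivity) (by positivity)
              exact (pow_le_pow_left₀ (Nat.cast_nonneg t) (by linarith) i).trans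
                (pow_le_pow_right₀ (by linarith) (by omega))
          _ = _ := by ring
    _ = (f.natDegree + 1 : ℕ) * (T + 1 : ℝ) ^ (K + 1) := by
        rw [Finset.sum_const, Finset.card_range, nsmul_eq_mul]
    _ ≤ _ := by
        apply mul_le_mul_of_nonneg_right _ (by positivity)
        have : (f.natDegree : ℝ) ≤ K := by exact_mod_cast hf
        push_cast
        linarith

/-- **Products of small spread with commensurable bases.** -/
theorem result (K : ℕ) : ∃ δ : ℝ, 0 < δ ∧ δ ≤ 1 ∧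
    (∃ t₀ : ℕ, ∀ t : ℕ, t₀ ≤ t → ∀ (b s : Fin 3 → ℕ) (l : Fin 3 → List ℕ),
      Commensurable K ((t : ℝ) ^ δ) t b s l → ∀ A B C : ℕ, 0 < A → 0 < B → 0 < C →
      (A : ℝ) ≤ (t : ℝ) ^ δ → (B : ℝ) ≤ (t : ℝ) ^ δ → (C : ℝ) ≤ (t : ℝ) ^ δ →
      IsSolution A B C ((t : ℝ) ^ δ) (l 0).prod (l 1).prod (l 2).prod → 1 < total s l) ∧
    ∀ A B C : ℕ, 0 < A → 0 < B → 0 < C → ∀ Q : ℝ,
      {x : ℕ × ℕ × ℕ | IsSolution A B C Q x.1 x.2.1 x.2.2 ∧
        ∃ (t : ℕ) (b s : Fin 3 → ℕ) (l : Fin 3 → List ℕ), Commensurable K ((t : ℝ) ^ δ) t b s l ∧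
          (l 0).prod = x.1 ∧ (l 1).prod = x.2.1 ∧ (l 2).prod = x.2.2 ∧ total s l ≤ 1}.Finite := by
  classical
  obtain ⟨δ₁, hδ₁, t₀, h⟩ := Pool.Agent.Q103.SP.main K
  obtain ⟨δ, hδ⟩ : ∃ δ, δ = min δ₁ 1 := ⟨_, rfl⟩
  have hδ0 : 0 < δ := by rw [hδ]; exact lt_min hδ₁ one_pos
  have hδ1 : δ ≤ 1 := by rw [hδ]; exact min_le_right _ _
  have hδδ : δ ≤ δ₁ := by rw [hδ]; exact min_le_left _ _
  have hfirst : ∀ t : ℕ, max t₀ 1 ≤ t → ∀ (b s : Fin 3 → ℕ) (l : Fin 3 → List ℕ),
      Commensurable K ((t : ℝ) ^ δ) t b s l → ∀ A B C : ℕ, 0 < A → 0 < B → 0 < C →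
      (A : ℝ) ≤ (t : ℝ) ^ δ → (B : ℝ) ≤ (t : ℝ) ^ δ → (C : ℝ) ≤ (t : ℝ) ^ δ →
      IsSolution A B C ((t : ℝ) ^ δ) (l 0).prod (l 1).prod (l 2).prod → 1 < total s l := by
    intro t ht b s l hc A B C hA hB hC hAt hBt hCt hsol
    have ht1 : (1 : ℝ) ≤ t := by exact_mod_cast (le_max_right _ _).trans ht
    have hmono : (t : ℝ) ^ δ ≤ (t : ℝ) ^ δ₁ := Real.rpow_le_rpow_of_exponent_le ht1 hδδ
    choose f hf1 hf2 hf3 hf4 hf5 using hc.digits
    have hsit : Pool.Agent.Q103.SP.Sit K ((t : ℝ) ^ δ₁) t f b s l :=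
      { monic := hf1
        pos := hf2
        deg := hf3
        coeff := fun w j => (hf4 w j).trans hmono
        base := hf5
        spread := hc.spread
        ne := fun w h0 => by
          have h1 := (hc.product w).2.1
          rw [h0] at h1
          simp at h1
        mem := fun w => (hc.product w).2.2.2 }
    refine h t ((le_max_left _ _).trans ht) f b s l hsit ?_ ![A, B, C] ?_ ?_ hsol.1 ?_
    · intro w x hx hcount
      obtain ⟨p, hp, hpx, hpH⟩ := hc.small_prime w x hx (lt_of_le_of_lt hmono hcount)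
      exact ⟨p, hp, hpx, hpH.trans hmono⟩
    · intro w
      fin_cases w
      · exact hA
      · exact hB
      · exact hC
    · intro w
      fin_cases w
      · exact hAt.trans hmono
      · exact hBt.trans hmono
      · exact hCt.trans hmono
    · refine hsol.2.trans ?_
      exact mul_le_mul_of_nonneg_right hmono (Nat.cast_nonneg _)
  refine ⟨δ, hδ0, hδ1, ⟨max t₀ 1, hfirst⟩, ?_⟩
  intro A B C hA hB hC Q
  have hev : ∀ y : ℝ, ∀ᶠ t : ℕ in Filter.atTop, y ≤ (t : ℝ) ^ δ := fun y =>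
    ((tendsto_rpow_atTop hδ0).comp
      (tendsto_natCast_atTop_atTop (R := ℝ))).eventually_ge_atTop y
  obtain ⟨t₁, ht₁⟩ := Filter.eventually_atTop.mp
    (((hev A).and (hev B)).and ((hev C).and (hev Q)))
  obtain ⟨M, hM⟩ : ∃ M, M = max (max t₀ 1) t₁ := ⟨_, rfl⟩
  obtain ⟨T, hT⟩ : ∃ T, T = (K + 1) * (M + 1) ^ (K + 1) + K := ⟨_, rfl⟩
  have ha : ∀ w, 0 < (![A, B, C] : Fin 3 → ℕ) w := by
    intro w
    fin_cases w
    · exact hA
    · exact hB
    · exact hC
  refine ((Pool.Agent.Q103.SP.smooth_finite T ![A, B, C] ha Q).image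
    (fun W : Fin 3 → ℕ => (W 0, W 1, W 2))).subset ?_
  rintro ⟨X, Y, Z⟩ ⟨hsol, t, b, s, l, hc, h0, h1, h2, htot⟩
  simp only at hsol h0 h1 h2
  have htM : t < M := by
    by_contra hcon
    push Not at hcon
    have ht0 : max t₀ 1 ≤ t := by rw [hM] at hcon; exact (le_max_left _ _).trans hcon
    obtain ⟨⟨g1, g2⟩, g3, g4⟩ := ht₁ t (by rw [hM] at hcon; exact (le_max_right _ _).trans hcon)
    have h3 := hfirst t ht0 b s l hc A B C hA hB hC g1 g2 g3 (by
      rw [h0, h1, h2]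
      exact ⟨hsol.1, hsol.2.trans (mul_le_mul_of_nonneg_right g4 (Nat.cast_nonneg _))⟩)
    linarith
  have hpow : (t : ℝ) ^ δ ≤ M := by
    rcases Nat.eq_zero_or_pos t with ht | ht
    · rw [ht, Nat.cast_zero, Real.zero_rpow hδ0.ne']
      exact Nat.cast_nonneg _
    · have ht1 : (1 : ℝ) ≤ t := by exact_mod_cast ht
      calc (t : ℝ) ^ δ ≤ (t : ℝ) ^ (1 : ℝ) := Real.rpow_le_rpow_of_exponent_le ht1 hδ1
        _ = t := Real.rpow_one _
        _ ≤ M := by exact_mod_cast htM.le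
  have hle : ∀ w, ∀ x ∈ l w, 0 < x ∧ x ≤ T := by
    intro w x hx
    obtain ⟨hb0, -, -, hb⟩ := hc.product w
    obtain ⟨f, -, -, hf3, hf4, hf5⟩ := hc.digits w
    have h3 := eval_le (T := M) hf3 (fun j => (hf4 j).trans hpow) htM.le
    rw [hf5] at h3
    have h4 : (b w : ℝ) ≤ (K + 1) * (M + 1 : ℝ) ^ (K + 1) := by
      have h5 := le_abs_self (((b w : ℕ) : ℤ) : ℝ)
      push_cast at h3 h5
      exact h5.trans h3
    have h5 : b w ≤ (K + 1) * (M + 1) ^ (K + 1) := by exact_mod_cast h4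
    have h6 := hc.spread w
    have h7 := hb x hx
    exact ⟨by omega, by omega⟩
  have hW : ∀ w, 0 < (l w).prod ∧ ∀ p : ℕ, p.Prime → p ∣ (l w).prod → p ≤ T := by
    intro w
    constructor
    · apply Nat.pos_of_ne_zero
      intro h3
      rw [List.prod_eq_zero_iff] at h3
      exact absurd (hle w 0 h3).1 (lt_irrefl 0)
    · intro p hp hpd
      obtain ⟨x, hx, hpx⟩ := (hp.prime.dvd_prod_iff).mp hpd
      exact (Nat.le_of_dvd (hle w x hx).1 hpx).trans (hle w x hx).2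
  refine ⟨fun w => (l w).prod, ⟨hW, ?_, ?_⟩, ?_⟩
  · simp only
    rw [h0, h1, h2]
    exact hsol.1
  · simp only
    rw [h0, h1]
    exact hsol.2
  · simp only
    rw [h0, h1, h2]

end Pool.Agent.Results.MP_4ffbf9_nt.CommensurableBases
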