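import Pool.Agent.Q138.PS.XX
import Pool.Agent.Q138.PS.YB

/-!
# `A X + B Y = C Z` in products of small spread: no factors close to the powers of a real number

There is a set `E` of real numbers of Hausdorff dimension ZERO such that every real `α > 1` outside `E` has the following
property. For all positive integers `A`, `B`, `C`, all `S`, `Q`, `κ` and all `l < 1` there is `R` such that for all real algebraic
`c > 0`, all integers `j`, all real `D` and all large `n`, NO integer `m ≥ 1` with `|m - c n ^ j α ^ n| ≤ D (c n ^ j α ^ n) ^ l` is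
a factor of a solution of `A X + B Y = C Z`, `gcd (X, Y) ≤ Q rad (gcd (X, Y))`, in products of spread at most `S`, of degrees at
least `R` (no upper bound), with all factors at most `m ^ κ`.

The proof uses the theorem AllDegreesCount of the starting files (the number of ratios `X : Y : Z` of the solutions with factors
at most `T` is at most `C T ^ ε` for `R` large). A factor of high degree has, up to a bounded difference, only prime factors of the
reduced triple, so that few factors belong to a given ratio.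
-/

set_option autoImplicit false

namespace Pool.Agent.Results.MP_4ffbf9_nt.FactorsNearPowers

open Filter Pool.Agent.Q138.PS Pool.Agent.Q138.PS.Spread

/-- **Theorem.** -/
theorem result : ∃ E : Set ℝ, dimH E = 0 ∧ ∀ α : ℝ, 1 < α → α ∉ E → ∀ (S Q A B C κ : ℕ), 0 < A → 0 < B → 0 < C →
    ∀ l : ℝ, l < 1 → ∃ R : ℕ, ∀ c : ℝ, 0 < c → IsAlgebraic ℚ c → ∀ (j : ℤ) (D : ℝ), ∀ᶠ n : ℕ in atTop, ∀ m : ℕ, 1 ≤ m →
      NearPow α c j D l n m → ¬ Occurs S Q R A B C κ m := by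
  have h : ∀ (i : ℕ × ℕ × {A : ℕ // 0 < A} × {B : ℕ // 0 < B} × {C : ℕ // 0 < C} × ℕ) (k : ℕ), ∃ (R : ℕ) (C₀ : ℝ),
      ∀ Y : ℕ, 1 ≤ Y → cn (Occurs i.1 i.2.1 R i.2.2.1 i.2.2.2.1 i.2.2.2.2.1 i.2.2.2.2.2) Y ≤
        C₀ * (Y : ℝ) ^ (1 / ((k : ℝ) + 1)) := fun i k =>
    few i.1 i.2.1 i.2.2.1 i.2.2.2.1 i.2.2.2.2.1 i.2.2.2.2.2 i.2.2.1.2 i.2.2.2.1.2 i.2.2.2.2.1.2 _ (by positivity)
  choose R C₀ hR using h
  obtain ⟨E, hE, hg⟩ := pow_zero_inf (ι := ℕ × ℕ × {A : ℕ // 0 < A} × {B : ℕ // 0 < B} × {C : ℕ // 0 < C} × ℕ) (κ := Unit)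
    (fun i _ k m => Occurs i.1 i.2.1 (R i k) i.2.2.1 i.2.2.2.1 i.2.2.2.2.1 i.2.2.2.2.2 m) (fun i _ k => ⟨C₀ i k, hR i k⟩)
  refine ⟨E, hE, fun α hα hαE S Q A B C κ hA hB hC l hl => ?_⟩
  obtain ⟨k, hk⟩ := hg α hα hαE (S, Q, ⟨A, hA⟩, ⟨B, hB⟩, ⟨C, hC⟩, κ) l hl
  exact ⟨R (S, Q, ⟨A, hA⟩, ⟨B, hB⟩, ⟨C, hC⟩, κ) k, fun c hc hca j D => hk () c hc hca j D⟩

end Pool.Agent.Results.MP_4ffbf9_nt.FactorsNearPowers
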