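import Mathlib
import Pool.Agent.Q273.SP.Det

/-!
# Products of small spread: solutions near almost every adelic point

The solutions `(X, Y, Z)` of `A X + B Y = C Z` in products with `∑ (s_W + 1) / n_W ≤ F < 1` are studied
through the rational numbers `A X / (C Z)` and their distances to a point `u = (ξ, η)` of
`ℝ × ∏_p ℤ_p`.
-/

set_option autoImplicit false

open MeasureTheory

namespace Pool.Agent.Results.MP_4ffbf9_nt.NearAlmostEveryAdele

/-- `X` is represented by a product of degree `n`, base `b` and spread `s`: `X = x_1 ⋯ x_n` with positive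
integers `x_i`, the smallest of them being `b` and the largest `b + s` -/
def Represents (X n b s : ℕ) : Prop :=
  0 < b ∧ ∃ x : Fin n → ℕ, (∀ i, b ≤ x i ∧ x i ≤ b + s) ∧ (∃ i, x i = b) ∧ (∃ i, x i = b + s) ∧
    ∏ i, x i = X

/-- the radical `rad(g)`: the product of the distinct primes dividing `g` -/
def rad (g : ℕ) : ℕ := ∏ p ∈ g.primeFactors, p

/-- the solutions `(X, Y, Z)` of the problem, for given `A, B, C, F, Q, M` -/
def Solutions (A B C : ℕ) (F Q M : ℝ) : Set (ℕ × ℕ × ℕ) :=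
  {t | A * t.1 + B * t.2.1 = C * t.2.2 ∧
    (Nat.gcd t.1 t.2.1 : ℝ) / rad (Nat.gcd t.1 t.2.1) ≤ Q ∧
    ∃ n b s : Fin 3 → ℕ, Represents t.1 (n 0) (b 0) (s 0) ∧ Represents t.2.1 (n 1) (b 1) (s 1) ∧
      Represents t.2.2 (n 2) (b 2) (s 2) ∧ (∀ i, (s i : ℝ) ^ 2 ≤ M * b i) ∧
      ∑ i, ((s i : ℝ) + 1) / n i ≤ F}

/-- the rational number `A X / (C Z)` of a solution `(X, Y, Z)` -/
def ratio (A C : ℕ) (t : ℕ × ℕ × ℕ) : ℚ := ((A * t.1 : ℕ) : ℚ) / ((C * t.2.2 : ℕ) : ℚ)

/-- the exponent, a continuous increasing piecewise linear function with `φ(1) = 15 / 28` -/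
noncomputable def φ (F : ℝ) : ℝ := if F ≤ 2 / 3 then 4 * F / 7 else (13 * F + 2) / 28

/-- the product of the rings of `p`-adic integers over all primes `p`, with the product topology -/
abbrev ZHat : Type := (p : Nat.Primes) → @PadicInt p.1 ⟨p.2⟩

/-- the proximity of `r` to `u = (ξ, η)` at the infinite place and at the primes in `V`:
`log max (1, 1 / |ξ - r|) + ∑_(p ∈ V) log max (1, 1 / |η_p - r|_p)` -/
noncomputable def m (V : Finset Nat.Primes) (u : ℝ × ZHat) (r : ℚ) : ℝ :=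
  Real.log (max 1 |u.1 - (r : ℝ)|⁻¹) + ∑ p ∈ V,
    haveI : Fact p.1.Prime := ⟨p.2⟩
    Real.log (max 1 ‖((u.2 p : ℤ_[p.1]) : ℚ_[p.1]) - (r : ℚ_[p.1])‖⁻¹)

/-- the solutions `(X, Y, Z)` with `|ξ - A X / (C Z)| ≤ D q ^ (-τ)`, `q` the denominator of
`A X / (C Z)` -/
def Near (A B C : ℕ) (F Q M τ D ξ : ℝ) : Set (ℕ × ℕ × ℕ) :=
  {t | t ∈ Solutions A B C F Q M ∧
    |ξ - (ratio A C t : ℝ)| ≤ D * ((ratio A C t).den : ℝ) ^ (-τ)}

/-- the real numbers `ξ` to which, for some `A, B, C, Q, M, D`, infinitely many solutions have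
`|ξ - A X / (C Z)| ≤ D q ^ (-τ)` -/
def Exceptional (F τ : ℝ) : Set ℝ :=
  {ξ | ∃ A B C : ℕ, 0 < A ∧ 0 < B ∧ 0 < C ∧ ∃ Q M D : ℝ, (Near A B C F Q M τ D ξ).Infinite}

open Pool.Agent.Results.MP_7aad9f_nt.MetricLaw (R c abc ρ SmallRadical)

private lemma sub_sol {A B C : ℕ} {F Q M : ℝ} :
    Solutions A B C F Q M ⊆ Q273.SP.Sol A B C F Q M := by
  rintro ⟨X, Y, Z⟩ ⟨h, hQ, n, b, s, ⟨hb0, x0, h01, h02, h03, h04⟩, ⟨hb1, x1, h11, h12, h13, h14⟩,
    ⟨hb2, x2, h21, h22, h23, h24⟩, hM, hsum⟩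
  simp only at h hQ h04 h14 h24
  refine ⟨h, ?_, n 0, s 0, n 1, s 1, n 2, s 2, ⟨b 0, x0, hb0, h01, h02, h03, h04, hM 0⟩,
    ⟨b 1, x1, hb1, h11, h12, h13, h14, hM 1⟩, ⟨b 2, x2, hb2, h21, h22, h23, h24, hM 2⟩, ?_⟩
  · have hR : (0 : ℝ) < R (Nat.gcd X Y) := by exact_mod_cast Q273.SP.R_pos _
    exact (div_le_iff₀ hR).1 hQ
  · rw [Fin.sum_univ_three] at hsum
    exact hsum

private lemma phi_le {F x t : ℝ} (hF : F < 1) (ht : 0 ≤ t) (hx : x ≤ F + t) :
    Pool.Agent.Results.MP_7aad9f_nt.MetricLaw.F x ≤ φ F + t := by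
  unfold Pool.Agent.Results.MP_7aad9f_nt.MetricLaw.F φ
  split_ifs <;> linarith

private lemma phi_eq {F : ℝ} (hF : F < 1) : Pool.Agent.Results.MP_7aad9f_nt.MetricLaw.F F = φ F := by
  unfold Pool.Agent.Results.MP_7aad9f_nt.MetricLaw.F φ
  by_cases h : F ≤ 2 / 3
  · rw [if_pos h, if_pos h]
  · rw [if_neg h, if_neg h, if_pos hF.le]

/-- finitely many rational numbers between `0` and `1` have bounded denominator -/
private lemma finite_den (L : ℝ) :
    {r : ℚ | 0 ≤ r ∧ r ≤ 1 ∧ Real.log r.den ≤ L}.Finite := by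
  obtain ⟨N, hN⟩ := exists_nat_ge (Real.exp L)
  refine Set.Finite.subset (((Set.finite_Iic N).prod (Set.finite_Iic N)).image
    (fun p : ℕ × ℕ => ((p.1 : ℚ) / (p.2 : ℚ)))) ?_
  rintro r ⟨h0, h1, h2⟩
  have hd : (r.den : ℝ) ≤ N := by
    have hpos : (0 : ℝ) < r.den := by exact_mod_cast r.pos
    have := (Real.log_le_iff_le_exp hpos).1 h2
    exact this.trans hN
  have hd' : r.den ≤ N := by exact_mod_cast hd
  have hn0 : 0 ≤ r.num := Rat.num_nonneg.2 h0
  obtain ⟨a, ha⟩ := Int.eq_ofNat_of_zero_le hn0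
  have hle : a ≤ r.den := by
    have h3 : r.num ≤ r.den := by
      have h4 : (r.num : ℚ) ≤ r.den := by
        have hden : (0 : ℚ) < r.den := by exact_mod_cast r.pos
        have h5 : (r.num : ℚ) / r.den ≤ 1 := by rw [Rat.num_div_den]; exact h1
        rwa [div_le_one hden] at h5
      exact_mod_cast h4
    rw [ha] at h3
    exact_mod_cast h3
  refine ⟨(a, r.den), ⟨hle.trans hd', hd'⟩, ?_⟩
  have h5 : (r.num : ℚ) / r.den = r := Rat.num_div_den r
  rw [ha] at h5
  simpa using h5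

/-- a set of solutions whose ratios have bounded denominators is finite -/
private lemma finite_of_bound {A B C : ℕ} (hA : 0 < A) (hB : 0 < B) (hC : 0 < C) {F : ℝ} (hF : F < 1)
    (Q M : ℝ) (T : Set (ℕ × ℕ × ℕ)) (hT : T ⊆ Solutions A B C F Q M) (L : ℝ)
    (hL : ∀ t ∈ T, Real.log (ratio A C t).den ≤ L) : T.Finite := by
  have hsub : T ⊆ ⋃ r ∈ {r : ℚ | 0 ≤ r ∧ r ≤ 1 ∧ Real.log r.den ≤ L},
      {t | t ∈ Q273.SP.Sol A B C F Q M ∧ Q273.SP.ratio A C t = r} := by
    rintro ⟨X, Y, Z⟩ ht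
    have hs := sub_sol (hT ht)
    obtain ⟨h, _, n1, s1, n2, s2, n3, s3, g1, g2, g3, _⟩ := id hs
    simp only at h g1 g2 g3
    obtain ⟨a, q, g, ha0, hlt, hg0, hnum, hden, _⟩ :=
      Q273.SP.exists_g hA hB hC g1.pos g2.pos g3.pos h
    set r : ℚ := Q273.SP.ratio A C (X, Y, Z) with hr
    have hrn : (r.num : ℚ) / r.den = r := Rat.num_div_den r
    have hqpos : (0 : ℚ) < q := by
      have : 0 < q := by omega
      exact_mod_cast this
    have hr' : r = (a : ℚ) / q := by
      rw [← hrn, hnum, hden, Int.cast_natCast]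
    have h0 : 0 ≤ r := by rw [hr']; positivity
    have h1 : r ≤ 1 := by
      rw [hr', div_le_one hqpos]
      exact_mod_cast hlt.le
    refine Set.mem_iUnion₂.2 ⟨r, ⟨h0, h1, hL _ ht⟩, ⟨hs, rfl⟩⟩
  refine Set.Finite.subset (Set.Finite.biUnion (finite_den L) fun r _ => ?_) hsub
  exact Q273.SP.main2 hA hB hC hF Q M r

/-- the exceptional set is contained in the set of the theorem on abc triples -/
private lemma exc_sub {F τ : ℝ} (hF : F < 1) : Exceptional F τ ⊆ SmallRadical F τ := by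
  rintro ξ ⟨A, B, C, hA, hB, hC, Q, M, D, hinf⟩
  obtain ⟨K, hK0, hK⟩ := Q273.SP.main1 hA hB hC hF Q M
  refine ⟨max |D| (Real.exp K), fun B' => ?_⟩
  by_contra hcon
  push Not at hcon
  refine hinf ?_
  refine finite_of_bound hA hB hC hF Q M _ (fun t ht => ht.1) B' fun t ht => ?_
  by_contra hlt
  push Not at hlt
  obtain ⟨h0, h1, hc, hrad⟩ := hK t (sub_sol ht.1)
  have hcr : (c (ratio A C t) : ℝ) = ((ratio A C t).den : ℝ) := by
    have : c (ratio A C t) = (ratio A C t).den := hc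
    rw [this]
  have hden : (0 : ℝ) < (ratio A C t).den := by exact_mod_cast (ratio A C t).pos
  have h2 := hcon (ratio A C t) h0 h1 (by rw [hcr]; exact hlt.le) (by
    rw [hcr]
    refine ht.2.trans (mul_le_mul_of_nonneg_right ((le_abs_self D).trans (le_max_left _ _)) ?_)
    exact (Real.rpow_pos_of_pos hden _).le)
  refine absurd ?_ (not_le.2 h2)
  have hR : (0 : ℝ) < R (abc (ratio A C t)) := by exact_mod_cast Q273.SP.R_pos _
  have h3 : (R (abc (ratio A C t)) : ℝ) ≤
      Real.exp (F * Real.log (c (ratio A C t)) + K) :=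
    (Real.log_le_iff_le_exp hR).1 hrad
  refine h3.trans ?_
  rw [Real.exp_add, mul_comm, hcr, Real.rpow_def_of_pos hden, mul_comm F]
  exact mul_le_mul_of_nonneg_right (le_max_right _ _) (Real.exp_pos _).le

private lemma dim_exc {F τ : ℝ} (hF0 : 0 < F) (hF : F < 1) (hτ : 0 < τ) :
    dimH (Exceptional F τ) ≤ ENNReal.ofReal (φ F / τ) := by
  letI : MeasurableSpace Pool.Agent.Results.MP_7aad9f_nt.MetricLaw.ZHat := borel _
  haveI : BorelSpace Pool.Agent.Results.MP_7aad9f_nt.MetricLaw.ZHat := ⟨rfl⟩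
  haveI : (0 : Measure Pool.Agent.Results.MP_7aad9f_nt.MetricLaw.ZHat).IsAddLeftInvariant :=
    ⟨fun g => Measure.map_zero _⟩
  have h := (Pool.Agent.Results.MP_7aad9f_nt.MetricLaw.result
    (0 : Measure Pool.Agent.Results.MP_7aad9f_nt.MetricLaw.ZHat)).2.2 F τ hF0 hτ
  rw [phi_eq hF] at h
  exact (dimH_mono (exc_sub hF)).trans h

/-- **Solutions near almost every adelic point.** Let `μ` be a finite translation invariant Borel measure
on the compact group `ZHat` (a multiple of Haar measure).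

1. For almost every `u = (ξ, η)` with respect to the product of Lebesgue measure and `μ`: for all finite
   sets `V` of primes, all positive integers `A, B, C`, all real `F < 1`, `Q, M` and all `δ > φ(F)`, only
   finitely many solutions have proximity `m_V ≥ δ log q` to `u`, `q` being the denominator of
   `A X / (C Z)`.
2. For `0 < F < 1` and `τ > 0` the set of the real numbers to which, for some `A, B, C, Q, M, D`,
   infinitely many solutions have `|ξ - A X / (C Z)| ≤ D q ^ (-τ)` has Hausdorff dimension at most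
   `φ(F) / τ`.
3. For all real `ξ` outside a set of Hausdorff dimension `0` and all `τ > 0` there is `F > 0` such that,
   for all `A, B, C, Q, M, D`, only finitely many solutions have `|ξ - A X / (C Z)| ≤ D q ^ (-τ)`. -/
theorem result [MeasurableSpace ZHat] [BorelSpace ZHat] (μ : Measure ZHat) [IsFiniteMeasure μ]
    [μ.IsAddLeftInvariant] :
    (∀ᵐ u : ℝ × ZHat ∂(volume.prod μ), ∀ (V : Finset Nat.Primes) (A B C : ℕ),
      0 < A → 0 < B → 0 < C → ∀ F Q M δ : ℝ, F < 1 → φ F < δ →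
      {t | t ∈ Solutions A B C F Q M ∧
        δ * Real.log (ratio A C t).den ≤ m V u (ratio A C t)}.Finite) ∧
    (∀ F τ : ℝ, 0 < F → F < 1 → 0 < τ → dimH (Exceptional F τ) ≤ ENNReal.ofReal (φ F / τ)) ∧
    ∃ E : Set ℝ, dimH E = 0 ∧ ∀ ξ ∉ E, ∀ τ : ℝ, 0 < τ → ∃ F : ℝ, 0 < F ∧
      ∀ A B C : ℕ, 0 < A → 0 < B → 0 < C → ∀ Q M D : ℝ, (Near A B C F Q M τ D ξ).Finite := by
  refine ⟨?_, fun F τ hF0 hF hτ => dim_exc hF0 hF hτ, ?_⟩
  · filter_upwards [(Pool.Agent.Results.MP_7aad9f_nt.MetricLaw.result μ).1] with u hu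
    intro V A B C hA hB hC F Q M δ hF hδ
    obtain ⟨K, hK0, hK⟩ := Q273.SP.main1 hA hB hC hF Q M
    obtain ⟨C', hC'⟩ := (hu V).1 ((δ - φ F) / 2) (by linarith)
    refine finite_of_bound hA hB hC hF Q M _ (fun t ht => ht.1) ((K + C') / ((δ - φ F) / 2))
      fun t ht => ?_
    obtain ⟨h0, h1, hc, hrad⟩ := hK t (sub_sol ht.1)
    have hcr : (c (ratio A C t) : ℝ) = ((ratio A C t).den : ℝ) := by
      have : c (ratio A C t) = (ratio A C t).den := hc
      rw [this]
    have hpos : 0 < (δ - φ F) / 2 := by linarith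
    rw [le_div_iff₀ hpos]
    have h2 := hC' (ratio A C t) h0 h1
    have h3 : δ * Real.log (ratio A C t).den ≤
        Pool.Agent.Results.MP_7aad9f_nt.MetricLaw.m V u (ratio A C t) := ht.2
    rw [hcr] at h2
    have hrad' : Real.log (R (abc (ratio A C t))) ≤ F * Real.log (ratio A C t).den + K := by
      have := hrad
      rw [show (c (Q273.SP.ratio A C t) : ℝ) = ((ratio A C t).den : ℝ) from hcr] at this
      exact this
    rcases (Real.log_natCast_nonneg (ratio A C t).den).eq_or_lt with h4 | h4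
    · rw [← h4] at h2 h3 ⊢
      linarith
    have hρ : ρ (ratio A C t) ≤ F + K / Real.log (ratio A C t).den := by
      unfold ρ
      rw [hcr, div_le_iff₀ h4, add_mul, div_mul_cancel₀ _ h4.ne']
      exact hrad'
    have h5 := phi_le hF (div_nonneg hK0 h4.le) hρ
    have h6 := mul_le_mul_of_nonneg_right h5 h4.le
    rw [add_mul, div_mul_cancel₀ _ h4.ne'] at h6
    nlinarith
  · refine ⟨⋃ k : ℕ, ⋂ j : ℕ, Exceptional (1 / ((j : ℝ) + 2)) (1 / ((k : ℝ) + 1)), ?_, ?_⟩
    · rw [dimH_iUnion]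
      refine le_antisymm (iSup_le fun k => ?_) bot_le
      have hk : (0 : ℝ) < 1 / ((k : ℝ) + 1) := by positivity
      have h1 : ∀ j : ℕ, dimH (⋂ j : ℕ, Exceptional (1 / ((j : ℝ) + 2)) (1 / ((k : ℝ) + 1))) ≤
          ENNReal.ofReal (φ (1 / ((j : ℝ) + 2)) / (1 / ((k : ℝ) + 1))) := fun j => by
        refine (dimH_mono (Set.iInter_subset _ j)).trans (dim_exc (by positivity) ?_ hk)
        rw [div_lt_one (by positivity)]
        have : (0 : ℝ) ≤ j := Nat.cast_nonneg j
        linarith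
      have h2 : Filter.Tendsto (fun j : ℕ => ENNReal.ofReal
          (φ (1 / ((j : ℝ) + 2)) / (1 / ((k : ℝ) + 1)))) Filter.atTop (nhds 0) := by
        have h3 : ∀ j : ℕ, φ (1 / ((j : ℝ) + 2)) / (1 / ((k : ℝ) + 1)) =
            (4 / 7 * ((k : ℝ) + 1)) * (1 / ((j : ℝ) + 2)) := fun j => by
          have h4 : 1 / ((j : ℝ) + 2) ≤ 2 / 3 := by
            rw [div_le_div_iff₀ (by positivity) (by norm_num)]
            have : (0 : ℝ) ≤ j := Nat.cast_nonneg j
            linarith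
          unfold φ
          rw [if_pos h4]
          field_simp
        have h5 : Filter.Tendsto (fun j : ℕ => (4 / 7 * ((k : ℝ) + 1)) * (1 / ((j : ℝ) + 2)))
            Filter.atTop (nhds ((4 / 7 * ((k : ℝ) + 1)) * 0)) := by
          refine Filter.Tendsto.const_mul _ ?_
          have h6 := (tendsto_one_div_add_atTop_nhds_zero_nat (𝕜 := ℝ)).comp
            (Filter.tendsto_add_atTop_nat 1)
          refine h6.congr fun j => ?_
          simp only [Function.comp]
          push_cast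
          ring
        rw [mul_zero] at h5
        have h7 := ENNReal.tendsto_ofReal h5
        rw [ENNReal.ofReal_zero] at h7
        refine h7.congr fun j => ?_
        rw [h3 j]
      exact ge_of_tendsto' h2 h1
    · intro ξ hξ τ hτ
      simp only [Set.mem_iUnion, Set.mem_iInter, not_exists, not_forall] at hξ
      obtain ⟨k, hk⟩ := exists_nat_one_div_lt hτ
      obtain ⟨j, hj⟩ := hξ k
      refine ⟨1 / ((j : ℝ) + 2), by positivity, fun A B C hA hB hC Q M D => ?_⟩
      have h1 : ¬ (Near A B C (1 / ((j : ℝ) + 2)) Q M (1 / ((k : ℝ) + 1)) |D| ξ).Infinite :=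
        fun h => hj ⟨A, B, C, hA, hB, hC, Q, M, |D|, h⟩
      refine (Set.not_infinite.1 h1).subset ?_
      rintro t ⟨h2, h3⟩
      refine ⟨h2, h3.trans ?_⟩
      have hden : (1 : ℝ) ≤ (ratio A C t).den := by
        have := (ratio A C t).pos
        exact_mod_cast this
      refine mul_le_mul (le_abs_self D) (Real.rpow_le_rpow_of_exponent_le hden (by linarith))
        (Real.rpow_nonneg (by linarith) _) (abs_nonneg D)

end Pool.Agent.Results.MP_4ffbf9_nt.NearAlmostEveryAdele
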