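import Pool.Agent.Q138.PS.WN
import Pool.Agent.Q138.AJ.R4ffbf9

/-!
# `A X + B Y = C Z` in products of bounded spread: the solutions whose ratio is close to a given point

Let `Y` be a metric space and `p : ℚ → Y` any map, for instance the inclusion `ℚ → ℝ` or `ℚ → ℚ_ℓ`. There is ONE set `Z ⊆ Y` of
Hausdorff dimension ZERO such that for every `z ∈ Y` outside `Z`, all positive integers `A, B, C`, all `S`, `Q` and all `θ > 0`
and `D` there is `R` with the following property. Consider the solutions of `A X + B Y = C Z` in products of spread at most `S`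
and of degrees at least `R` (no upper bound) with `dist (p (A X / (C Z)), z) ≤ D T ^ (-θ)`, where `T` is some common bound for
all factors.

* If `gcd (X, Y) ≤ Q rad (gcd (X, Y))`, then `T` is bounded, and there are only finitely many ratios `X : Y : Z`.
* There are only finitely many of them with `gcd (X, Y) ≤ Q`.
-/

set_option autoImplicit false

namespace Pool.Agent.Results.MP_4ffbf9_nt.SolutionsNearGivenPoints

open Filter Pool.Agent.Q138.PS Pool.Agent.Q138.AJ.R4ffbf9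

/-- the ratio `A X / (C Z)` -/
def ratio (A C : ℕ) (w : ℕ × ℕ × ℕ) : ℚ := ((A * w.1 : ℕ) : ℚ) / ((C * w.2.2 : ℕ) : ℚ)

theorem isProduct_mono {S T T' R R' X : ℕ} (hT : T ≤ T') (hR : R' ≤ R) (h : IsProduct S T R X) : IsProduct S T' R' X := by
  obtain ⟨l, h1, h2, h3, h4⟩ := h
  exact ⟨l, h1, hR.trans h2, fun a ha => ⟨(h3 a ha).1, (h3 a ha).2.trans hT⟩, h4⟩

theorem solutions_mono {S Q T T' R R' A B C : ℕ} (hT : T ≤ T') (hR : R' ≤ R) : Solutions S Q T R A B C ⊆ Solutions S Q T' R' A B C :=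
  fun _ h => ⟨h.1, h.2.1, isProduct_mono hT hR h.2.2.1, isProduct_mono hT hR h.2.2.2.1, isProduct_mono hT hR h.2.2.2.2⟩

theorem ratios_mono {S Q T T' R R' A B C : ℕ} (hT : T ≤ T') (hR : R' ≤ R) : Ratios S Q T R A B C ⊆ Ratios S Q T' R' A B C := by
  rintro t ⟨w, hw, h⟩
  exact ⟨w, solutions_mono hT hR hw, h⟩

/-- the statement for given `A, B, C, S, Q` -/
theorem one (Y : Type) [MetricSpace Y] [MeasurableSpace Y] [BorelSpace Y] (p : ℚ → Y) (S Q A B C : ℕ) (hA : 0 < A)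
    (hB : 0 < B) (hC : 0 < C) : ∃ Z : Set Y, dimH Z = 0 ∧ ∀ z, z ∉ Z → ∀ θ D : ℝ, 0 < θ → ∃ R : ℕ,
      (∀ T : ℕ, (Ratios S Q T R A B C).Finite ∧ {w ∈ Solutions S Q T R A B C | Nat.gcd w.1 w.2.1 ≤ Q}.Finite) ∧
      ∀ᶠ T : ℝ in atTop, ∀ t ∈ Ratios S Q ⌊T⌋₊ R A B C, D * T ^ (-θ) < dist (p t) z := by
  obtain ⟨R₁, C₁, -, h₁⟩ := Pool.Agent.Q138.AJ.R4ffbf9.result S Q A B C hA hB hC 1 one_pos
  obtain ⟨Z, hZ, hz⟩ := zero_eps p (fun N T => Ratios S Q ⌊T⌋₊ (max N R₁) A B C) (by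
    intro ε hε
    obtain ⟨R, C₀, hC₀, h⟩ := Pool.Agent.Q138.AJ.R4ffbf9.result S Q A B C hA hB hC ε hε
    refine ⟨R, fun θ hθ => ?_⟩
    refine dimH_map p _ (fun T => Ratios S Q ⌊T⌋₊ (max R R₁) A B C) θ ε C₀ 1 1 hθ hε.le ?_ ?_
    · intro T hT
      obtain ⟨⟨h2, h3⟩, -⟩ := h ⌊T⌋₊ ((Nat.one_le_floor_iff T).2 hT)
      have hsub : Ratios S Q ⌊T⌋₊ (max R R₁) A B C ⊆ Ratios S Q ⌊T⌋₊ R A B C := ratios_mono le_rfl (le_max_left _ _)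
      refine ⟨h2.subset hsub, ?_⟩
      have h4 : ((Ratios S Q ⌊T⌋₊ (max R R₁) A B C).ncard : ℝ) ≤ (Ratios S Q ⌊T⌋₊ R A B C).ncard := by
        exact_mod_cast Set.ncard_le_ncard hsub h2
      refine h4.trans (h3.trans (mul_le_mul_of_nonneg_left ?_ hC₀.le))
      exact Real.rpow_le_rpow (Nat.cast_nonneg _) (Nat.floor_le (by linarith)) hε.le
    · intro T T' _ h2 _
      exact ratios_mono (Nat.floor_mono h2) le_rfl)
  refine ⟨Z, hZ, fun z hzZ θ D hθ => ?_⟩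
  obtain ⟨N, hN⟩ := hz z hzZ θ D hθ
  refine ⟨max N R₁, fun T => ?_, hN⟩
  obtain ⟨⟨h2, -⟩, ⟨h3, -⟩⟩ := h₁ (max T 1) (le_max_right _ _)
  refine ⟨h2.subset (ratios_mono (le_max_left _ _) (le_max_right _ _)), h3.subset ?_⟩
  rintro w ⟨hw, hg⟩
  exact ⟨solutions_mono (le_max_left _ _) (le_max_right _ _) hw, hg⟩

/-- **Theorem.** -/
theorem result (Y : Type) [MetricSpace Y] [MeasurableSpace Y] [BorelSpace Y] (p : ℚ → Y) :
    ∃ Z : Set Y, dimH Z = 0 ∧ ∀ z, z ∉ Z → ∀ S Q A B C : ℕ, 0 < A → 0 < B → 0 < C → ∀ θ D : ℝ, 0 < θ → ∃ R : ℕ,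
      (∀ᶠ T : ℕ in atTop, ∀ w ∈ Solutions S Q T R A B C, D * (T : ℝ) ^ (-θ) < dist (p (ratio A C w)) z) ∧
      {t : ℚ | ∃ T : ℕ, ∃ w ∈ Solutions S Q T R A B C, t = ratio A C w ∧ dist (p t) z ≤ D * (T : ℝ) ^ (-θ)}.Finite ∧
      {w : ℕ × ℕ × ℕ | Nat.gcd w.1 w.2.1 ≤ Q ∧ ∃ T : ℕ, w ∈ Solutions S Q T R A B C ∧
        dist (p (ratio A C w)) z ≤ D * (T : ℝ) ^ (-θ)}.Finite := by
  have h : ∀ i : ℕ × ℕ × ℕ × ℕ × ℕ, ∃ Z : Set Y, dimH Z = 0 ∧ ∀ z, z ∉ Z → 0 < i.2.2.1 → 0 < i.2.2.2.1 → 0 < i.2.2.2.2 →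
      ∀ θ D : ℝ, 0 < θ → ∃ R : ℕ,
      (∀ T : ℕ, (Ratios i.1 i.2.1 T R i.2.2.1 i.2.2.2.1 i.2.2.2.2).Finite ∧
        {w ∈ Solutions i.1 i.2.1 T R i.2.2.1 i.2.2.2.1 i.2.2.2.2 | Nat.gcd w.1 w.2.1 ≤ i.2.1}.Finite) ∧
      ∀ᶠ T : ℝ in atTop, ∀ t ∈ Ratios i.1 i.2.1 ⌊T⌋₊ R i.2.2.1 i.2.2.2.1 i.2.2.2.2, D * T ^ (-θ) < dist (p t) z := by
    rintro ⟨S, Q, A, B, C⟩
    by_cases hp : 0 < A ∧ 0 < B ∧ 0 < C
    · obtain ⟨Z, hZ, hz⟩ := one Y p S Q A B C hp.1 hp.2.1 hp.2.2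
      exact ⟨Z, hZ, fun z hzZ _ _ _ => hz z hzZ⟩
    · exact ⟨∅, by simp, fun z _ h1 h2 h3 => absurd ⟨h1, h2, h3⟩ hp⟩
  choose Z hZ hz using h
  refine ⟨⋃ i, Z i, ?_, fun z hzZ S Q A B C hA hB hC θ D hθ => ?_⟩
  · rw [dimH_iUnion]
    simp [hZ]
  · obtain ⟨R, h1, h2⟩ := hz ⟨S, Q, A, B, C⟩ z (fun hh => hzZ (Set.mem_iUnion.2 ⟨_, hh⟩)) hA hB hC θ D hθ
    simp only at h1 h2
    have h3 : ∀ᶠ T : ℕ in atTop, ∀ w ∈ Solutions S Q T R A B C, D * (T : ℝ) ^ (-θ) < dist (p (ratio A C w)) z := by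
      filter_upwards [tendsto_natCast_atTop_atTop.eventually h2] with T hT w hw
      refine hT _ ⟨w, ?_, rfl⟩
      rw [Nat.floor_natCast]
      exact hw
    obtain ⟨T₀, hT₀⟩ := eventually_atTop.1 h3
    refine ⟨R, h3, (h1 T₀).1.subset ?_, (h1 T₀).2.subset ?_⟩
    · rintro t ⟨T, w, hw, rfl, hd⟩
      rcases le_or_gt T₀ T with hT | hT
      · exact absurd hd (not_le.2 (hT₀ T hT w hw))
      · exact ⟨w, solutions_mono hT.le le_rfl hw, rfl⟩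
    · rintro w ⟨hg, T, hw, hd⟩
      rcases le_or_gt T₀ T with hT | hT
      · exact absurd hd (not_le.2 (hT₀ T hT w hw))
      · exact ⟨solutions_mono hT.le le_rfl hw, hg⟩

end Pool.Agent.Results.MP_4ffbf9_nt.SolutionsNearGivenPoints
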